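import Mathlib

set_option autoImplicit false

open Filter
open scoped Topology

namespace Pool.Agent.Results.MP_43f217_an.NotClosed

/-- The formal scalar operator with `W = 0`. -/
noncomputable def M {X : Type} (b : X → X → ℝ) (μ : X → ℝ) (f : X → ℂ) (x : X) : ℂ :=
  1 / μ x * ∑' y, b x y * (f x - f y)

/-- Membership in `ℓ²(X, μ)`. -/
def L2 {X : Type} (μ : X → ℝ) (f : X → ℂ) : Prop := Summable fun x => ‖f x‖ ^ 2 * μ x

/-- The squared norm of `ℓ²(X, μ)`. -/
noncomputable def N {X : Type} (μ : X → ℝ) (f : X → ℂ) : ℝ := ∑' x, ‖f x‖ ^ 2 * μ x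

/-- The domain of the maximal operator. -/
def Dom {X : Type} (b : X → X → ℝ) (μ : X → ℝ) (f : X → ℂ) : Prop :=
  (∀ x, Summable fun y => b x y * ‖f y‖) ∧ L2 μ f ∧ L2 μ (M b μ f)

/-- The maximal operator is closed. -/
def Closed {X : Type} (b : X → X → ℝ) (μ : X → ℝ) : Prop :=
  ∀ (f : ℕ → X → ℂ) (u g : X → ℂ), (∀ k, Dom b μ (f k)) → L2 μ u → L2 μ g →
    Tendsto (fun k => N μ (f k - u)) atTop (𝓝 0) →
    Tendsto (fun k => N μ (M b μ (f k) - g)) atTop (𝓝 0) → Dom b μ u ∧ M b μ u = g

noncomputable def b : Option (ℕ × ℕ) → Option (ℕ × ℕ) → ℝ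
  | none, none => 0
  | none, some (k, i) => if i = 0 then 1 / 2 ^ k else 0
  | some (k, i), none => if i = 0 then 1 / 2 ^ k else 0
  | some (k, i), some (l, j) => if k = l ∧ (i = j + 1 ∨ j = i + 1) then 1 else 0

noncomputable def μ : Option (ℕ × ℕ) → ℝ
  | none => 1
  | some (k, i) => (1 / 2) ^ k * (1 / 2) ^ i / (2 ^ k + i) ^ 2

noncomputable def f (k : ℕ) : Option (ℕ × ℕ) → ℂ
  | none => 0
  | some (l, j) => if l = k then 2 ^ k + j else 0

lemma inj : Function.Injective fun k : ℕ => (some (k, 0) : Option (ℕ × ℕ)) := fun _ _ h => by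
  simpa using h

lemma supp0 (y : Option (ℕ × ℕ)) (hy : y ∉ Set.range fun k : ℕ => (some (k, 0) : Option (ℕ × ℕ))) :
    b none y = 0 := by
  rcases y with _ | ⟨l, j⟩
  · rfl
  · exact if_neg fun h => hy ⟨l, by rw [h]⟩

lemma supp (k i : ℕ) (y : Option (ℕ × ℕ))
    (hy : y ∉ ({none, some (k, i + 1), some (k, i - 1)} : Finset (Option (ℕ × ℕ)))) :
    b (some (k, i)) y = 0 := by
  rcases y with _ | ⟨l, j⟩
  · simp at hy
  · simp only [Finset.mem_insert, Finset.mem_singleton, Option.some.injEq, Prod.mk.injEq] at hy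
    exact if_neg (by omega)

lemma supp1 (k : ℕ) (y : Option (ℕ × ℕ)) (hy : y ≠ some (k, 0)) : b none y = 0 ∨ f k y = 0 := by
  rcases y with _ | ⟨l, j⟩
  · exact Or.inl rfl
  · by_cases h : j = 0
    · exact Or.inr (if_neg fun e => hy (by rw [e, h]))
    · exact Or.inl (if_neg h)

lemma Mf (k : ℕ) : M b μ (f k) = fun x => if x = none then -1 else 0 := by
  ext x
  rcases x with _ | ⟨l, i⟩
  · rw [M, tsum_eq_single (some (k, 0)) fun y hy => by
      rcases supp1 k y hy with h | h <;> simp [h, show f k none = 0 from rfl]]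
    simp [b, μ, f]
  · rw [M, if_neg (by simp)]
    refine mul_eq_zero_of_right _ ?_
    rw [tsum_eq_sum (s := {none, some (l, i + 1), some (l, i - 1)}) fun y hy => by
      simp [supp l i y hy]]
    rw [Finset.sum_insert (by simp), Finset.sum_pair (by simp; omega)]
    by_cases h : l = k
    · rcases i with _ | i <;> simp [b, f, h]
    · simp [f, h]

lemma Nf (k : ℕ) : HasSum (fun x => ‖f k x‖ ^ 2 * μ x) ((1 / 2) ^ k * 2) := by
  have i2 : Function.Injective fun j : ℕ => (some (k, j) : Option (ℕ × ℕ)) := fun _ _ h => by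
    simpa using h
  refine (i2.hasSum_iff fun y hy => ?_).1 ?_
  · rcases y with _ | ⟨l, j⟩
    · simp [f]
    · have : l ≠ k := fun e => hy ⟨j, by rw [e]⟩
      simp [f, this]
  · refine (hasSum_geometric_two.mul_left ((1 / 2 : ℝ) ^ k)).congr_fun fun j => ?_
    have : ‖(2 ^ k + j : ℂ)‖ = 2 ^ k + j := by norm_cast
    simp only [Function.comp, f, μ, if_true, this]
    field_simp

theorem result : ∃ (X : Type) (b : X → X → ℝ) (μ : X → ℝ), Countable X ∧
    (∀ x y, 0 ≤ b x y ∧ b x y = b y x) ∧ (∀ x, b x x = 0 ∧ Summable (b x) ∧ 0 < μ x) ∧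
    ¬ Closed b μ := by
  refine ⟨Option (ℕ × ℕ), b, μ, inferInstance, fun x y => ?_, fun x => ?_, fun h => ?_⟩
  · rcases x with _ | ⟨k, i⟩ <;> rcases y with _ | ⟨l, j⟩ <;> simp only [b, le_refl, and_true]
    · split_ifs <;> positivity
    · split_ifs <;> positivity
    · exact ⟨by split_ifs <;> norm_num, if_congr (by omega) rfl rfl⟩
  · rcases x with _ | ⟨k, i⟩
    · refine ⟨rfl, (inj.summable_iff supp0).1 ?_, one_pos⟩
      simpa [Function.comp_def, b] using summable_geometric_two
    · exact ⟨if_neg (by omega), summable_of_ne_finset_zero (supp k i), by unfold μ; positivity⟩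
  · have g2 : L2 μ fun x => if x = none then -1 else 0 :=
      (hasSum_single none fun y hy => by simp [hy]).summable
    have := (h f 0 _ (fun k => ⟨fun x => ?_, (Nf k).summable, by rw [Mf]; exact g2⟩)
      (by simpa [L2] using summable_zero) g2 ?_ (by simp [Mf, N])).2
    · simpa [M] using congrFun this none
    · rcases x with _ | ⟨l, i⟩
      · exact (hasSum_single (some (k, 0)) fun y hy => by
          rcases supp1 k y hy with h | h <;> simp [h]).summable
      · exact summable_of_ne_finset_zero fun y hy => by rw [supp l i y hy, zero_mul]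
    · simp only [sub_zero, N, fun k => (Nf k).tsum_eq]
      simpa using (tendsto_pow_atTop_nhds_zero_of_lt_one (r := (1 / 2 : ℝ)) (by norm_num)
        (by norm_num)).mul_const 2

end Pool.Agent.Results.MP_43f217_an.NotClosed
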